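import Mathlib
import Pool.Agent.MPcb9dee.NotFour

/-!
# MP_cb9dee_al: conformally rigid numbers not divisible by 4

The definitions `CRConformal`, `CRRigid` are in `Pool/Agent/MPcb9dee/Defs.lean`, and `CRActs`,
`CRGood` are in `Pool/Agent/MPcb9dee/Good.lean`.
-/

set_option autoImplicit false

namespace Pool.Agent.Results.MP_cb9dee_al.NotDivFour

/-- Every conformally rigid `n` is not divisible by `16` and satisfies the arithmetic conditions
`CRGood n`; if `4` does not divide `n`, then `n` is conformally rigid if and only if `CRGood n`. -/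
theorem result (n : ℕ) (hn : 0 < n) :
    (CRRigid n → ¬ 16 ∣ n ∧ CRGood n) ∧ (¬ 4 ∣ n → (CRRigid n ↔ CRGood n)) :=
  cr_main n hn

end Pool.Agent.Results.MP_cb9dee_al.NotDivFour
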