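import Mathlib
import Pool.Agent.MPcb9dee.Odd

/-!
# MP_cb9dee_al: the odd conformally rigid numbers

The definitions `CRConformal`, `CRRigid` are in `Pool/Agent/MPcb9dee/Defs.lean`, and `CRActs`,
`CRGood` are in `Pool/Agent/MPcb9dee/Good.lean`.
-/

set_option autoImplicit false

namespace Pool.Agent.Results.MP_cb9dee_al.OddOrders

/-- An odd number `n` is conformally rigid if and only if it satisfies the arithmetic conditions
`CRGood n`. -/
theorem result (n : ℕ) (hn : Odd n) : CRRigid n ↔ CRGood n :=
  cr_odd_iff hn

end Pool.Agent.Results.MP_cb9dee_al.OddOrders
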